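import Mathlib

/-!
Grünbaum's question on planar reptiles with holes (MP_25e24e_co): definitions.
-/

namespace Pool.Agent.R957.Rep

open Metric Set Pointwise

/-- The Euclidean plane. -/
abbrev Plane := EuclideanSpace ℝ (Fin 2)

/-- A *tile* is a bounded set which equals the closure of its interior. -/
def IsTile (X : Set Plane) : Prop :=
  Bornology.IsBounded X ∧ X = closure (interior X)

/-- `X` is an *`n`-reptile*: a tile which is the union of `n` isometric copies, with pairwise
disjoint interiors, of `n^(-1/2) X`. -/
def IsNReptile (n : ℕ) (X : Set Plane) : Prop :=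
  IsTile X ∧ ∃ g : Fin n → (Plane ≃ᵢ Plane),
    X = ⋃ i, g i '' ((Real.sqrt n)⁻¹ • X) ∧
    Pairwise fun i j => Disjoint (interior (g i '' ((Real.sqrt n)⁻¹ • X)))
      (interior (g j '' ((Real.sqrt n)⁻¹ • X)))

/-- `X` is a *reptile*: an `n`-reptile for some `n ≥ 2`. -/
def IsReptile (X : Set Plane) : Prop := ∃ n : ℕ, 2 ≤ n ∧ IsNReptile n X

/-- `X` *has a hole*: the complement of `X` has a bounded connected component. -/
def HasHole (X : Set Plane) : Prop :=
  ∃ x : Plane, x ∉ X ∧ Bornology.IsBounded (connectedComponentIn Xᶜ x)

section General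

variable {E : Type*} [NormedAddCommGroup E] [NormedSpace ℝ E]

/-- The union of the unbounded components of the complement of `A`. -/
def outer (A : Set E) : Set E :=
  {x | x ∈ Aᶜ ∧ ¬ Bornology.IsBounded (connectedComponentIn Aᶜ x)}

/-- The filled hull of `A`: `A` together with all bounded components of its complement. -/
def hull (A : Set E) : Set E := (outer A)ᶜ

end General

end Pool.Agent.R957.Rep
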