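import Pool.Agent.R957.Rep.Defs

/-!
Filled hulls (helper139), used for MP_25e24e_co.
-/

set_option linter.unusedSectionVars false

namespace Pool.Agent.R957.Rep

open Metric Set

variable {E : Type*} [NormedAddCommGroup E] [NormedSpace ℝ E]

lemma subset_hull (A : Set E) : A ⊆ hull A := by
  intro x hx h
  exact h.1 hx

lemma comp_subset_outer {A : Set E} {x : E} (hx : x ∈ outer A) :
    connectedComponentIn Aᶜ x ⊆ outer A := by
  intro y hy
  refine ⟨connectedComponentIn_subset _ _ hy, ?_⟩
  rw [← connectedComponentIn_eq hy]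
  exact hx.2

lemma bounded_comp_subset_hull {A : Set E} {x : E}
    (hb : Bornology.IsBounded (connectedComponentIn Aᶜ x)) :
    connectedComponentIn Aᶜ x ⊆ hull A := by
  intro y hy h
  apply h.2
  rw [← connectedComponentIn_eq hy]
  exact hb

lemma isClosed_hull {A : Set E} (hA : IsClosed A) : IsClosed (hull A) := by
  rw [← isOpen_compl_iff]
  unfold hull
  rw [compl_compl, isOpen_iff_mem_nhds]
  intro x hx
  exact Filter.mem_of_superset (hA.isOpen_compl.connectedComponentIn.mem_nhds
    (mem_connectedComponentIn hx.1)) (comp_subset_outer hx)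

lemma hull_subset_of_subset_hull {A B : Set E} (h : A ⊆ hull B) : hull A ⊆ hull B := by
  apply compl_subset_compl.2
  intro x hx
  have h1 : connectedComponentIn Bᶜ x ⊆ Aᶜ := by
    intro y hy hyA
    exact h hyA (comp_subset_outer hx hy)
  have hxm : x ∈ connectedComponentIn Bᶜ x := mem_connectedComponentIn hx.1
  refine ⟨h1 hxm, fun hb => hx.2 ?_⟩
  exact hb.subset (isPreconnected_connectedComponentIn.subset_connectedComponentIn hxm h1)

lemma frontier_hull_subset {A : Set E} (hA : IsClosed A) : frontier (hull A) ⊆ A := by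
  intro p hp
  by_contra hpA
  have hN : connectedComponentIn Aᶜ p ∈ nhds p :=
    hA.isOpen_compl.connectedComponentIn.mem_nhds (mem_connectedComponentIn hpA)
  by_cases hb : Bornology.IsBounded (connectedComponentIn Aᶜ p)
  · exact hp.2 (mem_interior_iff_mem_nhds.2
      (Filter.mem_of_superset hN (bounded_comp_subset_hull hb)))
  · have h1 : p ∈ outer A := ⟨hpA, hb⟩
    obtain ⟨y, hy1, hy2⟩ := mem_closure_iff_nhds.1 hp.1 _ hN
    exact hy2 (comp_subset_outer h1 hy1)

/-- The version with `0 ≤ D` (the statement is false in the zero space for `D < 0`, `A = ∅`). -/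
lemma hull_subset_closedBall_aux {A : Set E} {y : E} {D : ℝ} (h : A ⊆ closedBall y D)
    (h0 : 0 ≤ D ∨ Nontrivial E) : hull A ⊆ closedBall y D := by
  intro x hx
  by_contra hxD
  apply hx
  obtain ⟨v, hv0, hv⟩ : ∃ v : E, v ≠ 0 ∧ ∀ t : ℝ, 0 ≤ t → x + t • v ∉ closedBall y D := by
    by_cases hxy : x = y
    · have hD : D < 0 := by
        by_contra hD
        exact hxD (by rw [hxy]; exact mem_closedBall_self (not_lt.1 hD))
      rcases h0 with h0 | h0
      · exact absurd hD (not_lt.2 h0)
      · obtain ⟨v, hv⟩ := exists_ne (0 : E)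
        refine ⟨v, hv, fun t _ => ?_⟩
        rw [closedBall_eq_empty.2 hD]
        exact fun h => h
    · refine ⟨x - y, sub_ne_zero.2 hxy, fun t ht hmem => hxD ?_⟩
      rw [mem_closedBall, dist_eq_norm] at hmem ⊢
      have e : x + t • (x - y) - y = (1 + t) • (x - y) := by
        rw [add_smul, one_smul]; abel
      rw [e, norm_smul, Real.norm_of_nonneg (by linarith)] at hmem
      have := norm_nonneg (x - y)
      nlinarith
  set R : Set E := (fun t : ℝ => x + t • v) '' Ici 0 with hR
  have hRA : R ⊆ Aᶜ := by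
    rintro _ ⟨t, ht, rfl⟩ hA
    exact hv t ht (h hA)
  have hRx : x ∈ R := ⟨0, by simp, by simp⟩
  have hRc : IsPreconnected R := isPreconnected_Ici.image _ (by fun_prop)
  refine ⟨hRA hRx, fun hb => ?_⟩
  have hRb : Bornology.IsBounded R := hb.subset (hRc.subset_connectedComponentIn hRx hRA)
  obtain ⟨C, hC⟩ := Metric.isBounded_iff.1 hRb
  have hvn : 0 < ‖v‖ := norm_pos_iff.2 hv0
  have hC0 : 0 ≤ C := by
    have := hC hRx hRx
    rwa [dist_self] at this
  have h1 : x + ((C + 1) / ‖v‖) • v ∈ R := ⟨(C + 1) / ‖v‖, by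
    show (0 : ℝ) ≤ _
    positivity, rfl⟩
  have h2 := hC h1 hRx
  rw [dist_eq_norm, add_sub_cancel_left, norm_smul, Real.norm_of_nonneg (by positivity),
    div_mul_cancel₀ _ hvn.ne'] at h2
  linarith

lemma hull_subset_closedBall [Nontrivial E] {A : Set E} {y : E} {D : ℝ}
    (h : A ⊆ closedBall y D) : hull A ⊆ closedBall y D :=
  hull_subset_closedBall_aux h (Or.inr inferInstance)

lemma isBounded_image_iff (f : E → E) {c : ℝ} (hc : 0 < c)
    (hf : ∀ x y, dist (f x) (f y) = c * dist x y) (S : Set E) :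
    Bornology.IsBounded (f '' S) ↔ Bornology.IsBounded S := by
  rw [Metric.isBounded_iff, Metric.isBounded_iff]
  constructor
  · rintro ⟨C, hC⟩
    refine ⟨C / c, fun x hx y hy => ?_⟩
    rw [le_div_iff₀ hc, mul_comm, ← hf]
    exact hC (mem_image_of_mem f hx) (mem_image_of_mem f hy)
  · rintro ⟨C, hC⟩
    refine ⟨c * C, ?_⟩
    rintro _ ⟨x, hx, rfl⟩ _ ⟨y, hy, rfl⟩
    rw [hf]
    exact mul_le_mul_of_nonneg_left (hC hx hy) hc.le

lemma image_hull (f : E ≃ₜ E) {c : ℝ} (hc : 0 < c)
    (hf : ∀ x y, dist (f x) (f y) = c * dist x y) (A : Set E) :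
    f '' hull A = hull (f '' A) := by
  unfold hull
  rw [image_compl_eq f.bijective]
  congr 1
  ext y
  obtain ⟨x, rfl⟩ := f.surjective y
  rw [f.injective.mem_set_image]
  unfold outer
  simp only [mem_setOf_eq]
  rw [← image_compl_eq f.bijective, f.injective.mem_set_image]
  refine and_congr_right fun hx => not_congr ?_
  rw [← f.image_connectedComponentIn hx, isBounded_image_iff f hc hf]

end Pool.Agent.R957.Rep
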