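import Pool.Agent.R957.Rep.Defs

namespace Pool.Agent.R957.Rep

open Metric Set

theorem isometry_image_eq_of_subset {α : Type*} [MetricSpace α] {K : Set α} (hK : IsCompact K)
    (h : α → α) (hd : ∀ x y, dist (h x) (h y) = dist x y) (hs : h '' K ⊆ K) :
    h '' K = K := by
  apply Subset.antisymm hs
  intro y hy
  by_contra hny
  have hiso : Isometry h := Isometry.of_dist_eq hd
  have hcomp : IsCompact (h '' K) := hK.image hiso.continuous
  have hne : (h '' K).Nonempty := ⟨h y, mem_image_of_mem h hy⟩
  have he : 0 < infDist y (h '' K) :=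
    (hcomp.isClosed.notMem_iff_infDist_pos hne).1 hny
  have hmem : ∀ n, h^[n] y ∈ K := by
    intro n
    induction n with
    | zero => exact hy
    | succ n ih =>
      rw [Function.iterate_succ_apply']
      exact hs (mem_image_of_mem h ih)
  have hit : ∀ (m : ℕ) (a b : α), dist (h^[m] a) (h^[m] b) = dist a b := by
    intro m
    induction m with
    | zero => intro a b; rfl
    | succ m ih =>
      intro a b
      rw [Function.iterate_succ_apply', Function.iterate_succ_apply', hd, ih]
  have hdist : ∀ m k : ℕ, infDist y (h '' K) ≤ dist (h^[m] y) (h^[m + (k + 1)] y) := by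
    intro m k
    have e : dist (h^[m] y) (h^[m + (k + 1)] y) = dist y (h^[k + 1] y) := by
      rw [Function.iterate_add_apply]
      exact hit m _ _
    rw [e]
    apply infDist_le_dist_of_mem
    rw [Function.iterate_succ_apply']
    exact mem_image_of_mem h (hmem k)
  obtain ⟨a, _, φ, hφ, hlim⟩ := hK.tendsto_subseq hmem
  have hc := hlim.cauchySeq
  rw [Metric.cauchySeq_iff] at hc
  obtain ⟨N, hN⟩ := hc _ he
  have h1 := hN N le_rfl (N + 1) (Nat.le_succ N)
  have h2 := hφ (Nat.lt_succ_self N)
  have h3 := hdist (φ N) (φ (N + 1) - φ N - 1)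
  have e : φ N + (φ (N + 1) - φ N - 1 + 1) = φ (N + 1) := by
    have : φ N < φ (N + 1) := h2
    omega
  rw [e] at h3
  exact absurd h1 (not_lt.2 h3)

theorem packing_bound {E : Type*} [NormedAddCommGroup E] [NormedSpace ℝ E] [ProperSpace E]
    (D ε : ℝ) (hε : 0 < ε) :
    ∃ M : ℕ, ∀ s : ℝ, 0 < s → ∀ (p : E) (S : Finset E),
      (∀ x ∈ S, dist x p ≤ s * D) →
      (∀ x ∈ S, ∀ y ∈ S, x ≠ y → s * ε ≤ dist x y) → S.card ≤ M := by
  classical
  obtain ⟨t, _, htf, hcov⟩ := (isCompact_closedBall (0 : E) D).finite_cover_balls (half_pos hε)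
  refine ⟨htf.toFinset.card, ?_⟩
  intro s hs p S h1 h2
  have hq : ∀ x ∈ S, ∃ c ∈ t, dist (s⁻¹ • (x - p)) c < ε / 2 := by
    intro x hx
    have hmem : s⁻¹ • (x - p) ∈ closedBall (0 : E) D := by
      rw [mem_closedBall, dist_zero_right, norm_smul, norm_inv, Real.norm_of_nonneg hs.le,
        ← dist_eq_norm, inv_mul_le_iff₀ hs]
      exact h1 x hx
    have := hcov hmem
    simp only [mem_iUnion, mem_ball, exists_prop] at this
    exact this
  choose! c hct hcd using hq
  apply Finset.card_le_card_of_injOn c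
  · intro x hx
    rw [Finite.coe_toFinset]
    exact hct x hx
  · intro x hx y hy hxy
    by_contra hne
    have h3 := h2 x hx y hy hne
    have h4 : dist (s⁻¹ • (x - p)) (s⁻¹ • (y - p)) < ε := by
      calc dist (s⁻¹ • (x - p)) (s⁻¹ • (y - p))
          ≤ dist (s⁻¹ • (x - p)) (c x) + dist (c x) (s⁻¹ • (y - p)) := dist_triangle _ _ _
        _ < ε / 2 + ε / 2 := by
            apply add_lt_add (hcd x hx)
            rw [hxy, dist_comm]
            exact hcd y hy
        _ = ε := by ring
    rw [dist_eq_norm, ← smul_sub, norm_smul, norm_inv, Real.norm_of_nonneg hs.le,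
      sub_sub_sub_cancel_right, ← dist_eq_norm, inv_mul_lt_iff₀ hs] at h4
    linarith

end Pool.Agent.R957.Rep
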