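import Pool.Agent.R957.Rep.Hull
import Pool.Agent.R957.Rep.Pack

namespace Pool.Agent.R957.Rep

open Metric Set

variable {E : Type*} [NormedAddCommGroup E] [NormedSpace ℝ E]

/-- Composition along a word; the children of `w` are the words `i :: w`. -/
def G {n : ℕ} (f : Fin n → E ≃ₜ E) : List (Fin n) → (E ≃ₜ E)
  | [] => Homeomorph.refl E
  | i :: w => (f i).trans (G f w)

/-- Data of a self-similar closure of a connected open set. -/
structure IFS (n : ℕ) (f : Fin n → E ≃ₜ E) (r : ℝ) (U : Set E) : Prop where
  r_pos : 0 < r
  r_lt : r < 1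
  dist_f : ∀ i x y, dist (f i x) (f i y) = r * dist x y
  isOpen : IsOpen U
  conn : IsConnected U
  bdd : Bornology.IsBounded (closure U)
  cover : closure U = ⋃ i, f i '' closure U
  disj : Pairwise fun i j =>
    Disjoint (interior (f i '' closure U)) (interior (f j '' closure U))
  nontriv : (closure U).Nontrivial

set_option linter.unusedSectionVars false

variable {n : ℕ} {f : Fin n → E ≃ₜ E} {r : ℝ} {U : Set E}

lemma G_cons_image (w : List (Fin n)) (i : Fin n) (A : Set E) :
    G f (i :: w) '' A = G f w '' (f i '' A) := by
  rw [image_image]; rfl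

lemma G_dist (h : IFS n f r U) (w : List (Fin n)) (x y : E) :
    dist (G f w x) (G f w y) = r ^ w.length * dist x y := by
  induction w generalizing x y with
  | nil => simp [G]
  | cons i w ih =>
    have : dist (G f (i :: w) x) (G f (i :: w) y)
        = dist (G f w (f i x)) (G f w (f i y)) := rfl
    rw [this, ih, h.dist_f, List.length_cons, pow_succ]
    ring

lemma T_cover (h : IFS n f r U) (w : List (Fin n)) :
    G f w '' closure U = ⋃ i, G f (i :: w) '' closure U := by
  conv_lhs => rw [h.cover]
  rw [image_iUnion]
  simp only [G_cons_image]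

lemma T_cons_subset (h : IFS n f r U) (i : Fin n) (w : List (Fin n)) :
    G f (i :: w) '' closure U ⊆ G f w '' closure U := by
  rw [T_cover h w]
  exact subset_iUnion (fun i => G f (i :: w) '' closure U) i

lemma exists_word (h : IFS n f r U) (k : ℕ) :
    ∀ x ∈ closure U, ∃ w : List (Fin n), w.length = k ∧ x ∈ G f w '' closure U := by
  intro x hx
  induction k with
  | zero => exact ⟨[], rfl, ⟨x, hx, rfl⟩⟩
  | succ k ih =>
    obtain ⟨w, hw, hxw⟩ := ih
    rw [T_cover h w] at hxw
    obtain ⟨i, hi⟩ := mem_iUnion.1 hxw
    exact ⟨i :: w, by simp [hw], hi⟩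

lemma disj_T (h : IFS n f r U) : ∀ v w : List (Fin n), v.length = w.length → v ≠ w →
    Disjoint (interior (G f v '' closure U)) (interior (G f w '' closure U)) := by
  intro v
  induction v with
  | nil =>
    intro w hl hne
    have : w = [] := by
      apply List.length_eq_zero_iff.1
      simpa using hl.symm
    exact absurd this.symm hne
  | cons i v ih =>
    intro w hl hne
    cases w with
    | nil => simp at hl
    | cons j w =>
      by_cases hvw : v = w
      · subst hvw
        have hij : i ≠ j := by
          rintro rfl; exact hne rfl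
        rw [G_cons_image, G_cons_image, ← (G f v).image_interior (f i '' closure U),
          ← (G f v).image_interior (f j '' closure U)]
        exact (disjoint_image_iff (G f v).injective).2 (h.disj hij)
      · have hl' : v.length = w.length := by simpa using hl
        exact (ih w hl' hvw).mono (interior_mono (T_cons_subset h i v))
          (interior_mono (T_cons_subset h j w))

lemma T_eq_closure (w : List (Fin n)) :
    G f w '' closure U = closure (G f w '' U) := (G f w).image_closure U

lemma UU_open (h : IFS n f r U) (w : List (Fin n)) : IsOpen (G f w '' U) :=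
  (G f w).isOpenMap U h.isOpen

lemma UU_subset_interior (h : IFS n f r U) (w : List (Fin n)) :
    G f w '' U ⊆ interior (G f w '' closure U) :=
  interior_maximal (image_mono subset_closure) (UU_open h w)

lemma UU_disj (h : IFS n f r U) {v w : List (Fin n)} (hl : v.length = w.length) (hne : v ≠ w) :
    Disjoint (G f v '' U) (G f w '' closure U) := by
  rw [T_eq_closure]
  apply Disjoint.closure_right _ (UU_open h v)
  exact (disj_T h v w hl hne).mono (UU_subset_interior h v) (UU_subset_interior h w)

lemma hull_closed : IsClosed (hull (closure U)) := isClosed_hull isClosed_closure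

lemma KK_closed (w : List (Fin n)) : IsClosed (G f w '' hull (closure U)) :=
  (G f w).isClosedMap _ hull_closed

lemma KK_eq_hull (h : IFS n f r U) (w : List (Fin n)) :
    G f w '' hull (closure U) = hull (G f w '' closure U) :=
  image_hull (G f w) (pow_pos h.r_pos w.length) (G_dist h w) (closure U)

lemma dist_hull_le (h : IFS n f r U) {a b : E} (ha : a ∈ hull (closure U))
    (hb : b ∈ hull (closure U)) : dist a b ≤ diam (closure U) := by
  have hnt : Nontrivial E := by
    obtain ⟨a, _, b, _, hab⟩ := h.nontriv
    exact ⟨a, b, hab⟩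
  have h1 : ∀ c ∈ closure U, closure U ⊆ closedBall c (diam (closure U)) := by
    intro c hc x hx
    exact mem_closedBall.2 (dist_le_diam_of_mem h.bdd hx hc)
  have h2 : closure U ⊆ closedBall b (diam (closure U)) := by
    intro c hc
    have := hull_subset_closedBall (h1 c hc) hb
    rw [mem_closedBall, dist_comm]
    exact mem_closedBall.1 this
  exact mem_closedBall.1 (hull_subset_closedBall h2 ha)

lemma hull_bounded (h : IFS n f r U) : Bornology.IsBounded (hull (closure U)) := by
  obtain ⟨c, hc⟩ := h.conn.nonempty
  have hc' : c ∈ hull (closure U) := subset_hull _ (subset_closure hc)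
  exact (isBounded_closedBall (x := c) (r := diam (closure U))).subset
    (fun x hx => mem_closedBall.2 (dist_hull_le h hx hc'))

lemma diam_pos' (h : IFS n f r U) : 0 < diam (closure U) := by
  obtain ⟨a, ha, b, hb, hab⟩ := h.nontriv
  exact (dist_pos.2 hab).trans_le (dist_le_diam_of_mem h.bdd ha hb)

lemma KK_cons_subset (h : IFS n f r U) (i : Fin n) (w : List (Fin n)) :
    G f (i :: w) '' hull (closure U) ⊆ G f w '' hull (closure U) := by
  rw [KK_eq_hull h (i :: w), KK_eq_hull h w]
  apply hull_subset_of_subset_hull
  exact (T_cons_subset h i w).trans (subset_hull _)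

/-- If a tile of level `k` meets a hole of another tile of level `k`, the hulls agree. -/
lemma hull_eq [ProperSpace E] (h : IFS n f r U) {v w : List (Fin n)} (hl : v.length = w.length)
    (hne : v ≠ w) {x : E} (hx : x ∉ closure U)
    (hb : Bornology.IsBounded (connectedComponentIn (closure U)ᶜ x))
    (hmeet : (G f v '' closure U ∩ G f w '' connectedComponentIn (closure U)ᶜ x).Nonempty) :
    G f v '' hull (closure U) = G f w '' hull (closure U) := by
  set C := connectedComponentIn (closure U)ᶜ x with hC
  have hCo : IsOpen C := isClosed_closure.isOpen_compl.connectedComponentIn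
  have hHo : IsOpen (G f w '' C) := (G f w).isOpenMap C hCo
  have hHeq : G f w '' C = connectedComponentIn (G f w '' closure U)ᶜ (G f w x) := by
    rw [hC, Homeomorph.image_connectedComponentIn (G f w) (mem_compl hx),
      image_compl_eq (G f w).bijective]
  have hm : (G f v '' U ∩ G f w '' C).Nonempty := by
    rw [T_eq_closure] at hmeet
    exact (closure_inter_open_nonempty_iff hHo).1 hmeet
  obtain ⟨y, hyU, hyC⟩ := hm
  have hsub : G f v '' U ⊆ G f w '' C := by
    have h1 : IsPreconnected (G f v '' U) :=
      (h.conn.image _ (G f v).continuous.continuousOn).isPreconnected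
    have h2 : G f v '' U ⊆ (G f w '' closure U)ᶜ :=
      (UU_disj h hl hne).subset_compl_right
    have h3 := h1.subset_connectedComponentIn hyU h2
    rw [hHeq] at hyC ⊢
    rw [connectedComponentIn_eq hyC]
    exact h3
  have hsub2 : G f v '' hull (closure U) ⊆ G f w '' hull (closure U) := by
    rw [KK_eq_hull h v, KK_eq_hull h w]
    apply hull_subset_of_subset_hull
    rw [← KK_eq_hull h w, T_eq_closure]
    apply closure_minimal _ (KK_closed w)
    exact hsub.trans (image_mono (bounded_comp_subset_hull hb))
  -- rigidity
  have hcomp : IsCompact (G f w '' hull (closure U)) :=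
    (isCompact_of_isClosed_isBounded hull_closed (hull_bounded h)).image (G f w).continuous
  have hd : ∀ a b, dist (G f v ((G f w).symm a)) (G f v ((G f w).symm b)) = dist a b := by
    intro a b
    rw [G_dist h v, hl]
    have := G_dist h w ((G f w).symm a) ((G f w).symm b)
    rw [Homeomorph.apply_symm_apply, Homeomorph.apply_symm_apply] at this
    exact this.symm
  have himg : (fun a => G f v ((G f w).symm a)) '' (G f w '' hull (closure U))
      = G f v '' hull (closure U) := by
    rw [image_image]
    simp
  have := isometry_image_eq_of_subset hcomp (fun a => G f v ((G f w).symm a)) hd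
    (by rw [himg]; exact hsub2)
  rw [himg] at this
  exact this

/-- Tiles with equal hulls have the same parent. -/
lemma parent_eq (h : IFS n f r U) {v w : List (Fin n)} {i j : Fin n}
    (hl : v.length = w.length)
    (hK : G f (i :: v) '' hull (closure U) = G f (j :: w) '' hull (closure U)) : v = w := by
  by_contra hne
  set A := G f (i :: v) '' hull (closure U) with hA
  have hAc : IsClosed A := KK_closed _
  have h1 : ¬ (G f v '' U ∩ frontier A).Nonempty := by
    rintro ⟨p, hp, hpA⟩
    have h2 : p ∈ G f (j :: w) '' closure U := by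
      rw [hK, KK_eq_hull h] at hpA
      exact frontier_hull_subset (by rw [T_eq_closure]; exact isClosed_closure) hpA
    exact (UU_disj h hl hne).le_bot ⟨hp, T_cons_subset h j w h2⟩
  have h2 : (G f v '' U ∩ A).Nonempty := by
    have h3 : (closure (G f v '' U) ∩ G f (i :: v) '' U).Nonempty := by
      obtain ⟨c, hc⟩ := h.conn.nonempty
      refine ⟨G f (i :: v) c, ?_, mem_image_of_mem _ hc⟩
      rw [← T_eq_closure]
      exact T_cons_subset h i v (mem_image_of_mem _ (subset_closure hc))
    obtain ⟨y, hy1, hy2⟩ := (closure_inter_open_nonempty_iff (UU_open h (i :: v))).1 h3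
    exact ⟨y, hy1, image_mono (subset_closure.trans (subset_hull _)) hy2⟩
  have h3 : G f v '' U ⊆ A := by
    by_contra hcon
    have h4 : (G f v '' U ∩ Aᶜ).Nonempty := by
      rw [not_subset] at hcon
      obtain ⟨a, ha, ha'⟩ := hcon
      exact ⟨a, ha, ha'⟩
    have hpc : IsPreconnected (G f v '' U) :=
      (h.conn.image _ (G f v).continuous.continuousOn).isPreconnected
    have hin : ∀ y ∈ G f v '' U, y ∈ A → y ∈ interior A := by
      intro y hy hyA
      by_contra hyi
      exact h1 ⟨y, hy, by rw [hAc.frontier_eq]; exact ⟨hyA, hyi⟩⟩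
    have hcov : G f v '' U ⊆ interior A ∪ Aᶜ := by
      intro y hy
      by_cases hyA : y ∈ A
      · exact Or.inl (hin y hy hyA)
      · exact Or.inr hyA
    obtain ⟨y, hy1, hy2⟩ := h2
    obtain ⟨z, _, hz1, hz2⟩ := hpc _ _ isOpen_interior hAc.isOpen_compl hcov
      ⟨y, hy1, hin y hy1 hy2⟩ h4
    exact hz2 (interior_subset hz1)
  have h4 : G f v '' closure U ⊆ A := by
    rw [T_eq_closure]
    exact closure_minimal h3 hAc
  have hD := diam_pos' h
  have h5 : diam (closure U) ≤ r * diam (closure U) := by
    apply diam_le_of_forall_dist_le (mul_nonneg h.r_pos.le hD.le)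
    intro a ha b hb
    obtain ⟨a', ha', haa⟩ := h4 (mem_image_of_mem _ ha)
    obtain ⟨b', hb', hbb⟩ := h4 (mem_image_of_mem _ hb)
    have h6 := G_dist h v a b
    rw [← haa, ← hbb, G_dist h, List.length_cons, pow_succ] at h6
    have h7 := dist_hull_le h ha' hb'
    have hk : 0 < r ^ v.length := pow_pos h.r_pos _
    have h8 : r * dist a' b' = dist a b := by
      have : r ^ v.length * (r * dist a' b') = r ^ v.length * dist a b := by
        rw [← h6]; ring
      exact mul_left_cancel₀ hk.ne' this
    rw [← h8]
    exact mul_le_mul_of_nonneg_left h7 h.r_pos.le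
  nlinarith [h.r_lt]

/-- Every tile whose hull is contained in `X` has a partner with the same hull. -/
lemma exists_partner [ProperSpace E] (h : IFS n f r U) {x : E} (hx : x ∉ closure U)
    (hb : Bornology.IsBounded (connectedComponentIn (closure U)ᶜ x))
    (w : List (Fin n)) (hw : G f w '' hull (closure U) ⊆ closure U) :
    ∃ v : List (Fin n), v.length = w.length ∧ v ≠ w ∧
      G f v '' hull (closure U) = G f w '' hull (closure U) := by
  have hxC : x ∈ connectedComponentIn (closure U)ᶜ x := mem_connectedComponentIn (mem_compl hx)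
  have hy : G f w x ∈ closure U :=
    hw (mem_image_of_mem _ (bounded_comp_subset_hull hb hxC))
  obtain ⟨v, hv, hyv⟩ := exists_word h w.length _ hy
  have hne : v ≠ w := by
    rintro rfl
    obtain ⟨z, hz, hzz⟩ := hyv
    exact hx ((G f v).injective hzz ▸ hz)
  exact ⟨v, hv, hne, hull_eq h hv hne hx hb ⟨_, hyv, mem_image_of_mem _ hxC⟩⟩

lemma frontier_KK_subset (h : IFS n f r U) (w : List (Fin n)) :
    frontier (G f w '' hull (closure U)) ⊆ G f w '' closure U := by
  rw [KK_eq_hull h]
  exact frontier_hull_subset (by rw [T_eq_closure]; exact isClosed_closure)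

lemma growth [ProperSpace E] (h : IFS n f r U) {x : E} (hx : x ∉ closure U)
    (hb : Bornology.IsBounded (connectedComponentIn (closure U)ᶜ x)) (l : ℕ) :
    ∀ w : List (Fin n), G f w '' hull (closure U) ⊆ closure U →
      ∀ p ∈ frontier (G f w '' hull (closure U)),
        ∃ S : Finset (List (Fin n)), S.card = 2 ^ l ∧
          ∀ v ∈ S, v.length = w.length + l ∧ w <:+ v ∧ p ∈ G f v '' closure U := by
  induction l with
  | zero =>
    intro w hw p hp
    refine ⟨{w}, by simp, ?_⟩
    intro v hv
    rw [Finset.mem_singleton] at hv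
    subst hv
    exact ⟨by simp, List.suffix_refl _, frontier_KK_subset h _ hp⟩
  | succ l ih =>
    intro w hw p hp
    have hpT : p ∈ G f w '' closure U := frontier_KK_subset h _ hp
    rw [T_cover h w] at hpT
    obtain ⟨i, hi⟩ := mem_iUnion.1 hpT
    have hwi : G f (i :: w) '' hull (closure U) ⊆ closure U := (KK_cons_subset h i w).trans hw
    obtain ⟨v, hv, hvne, hvK⟩ := exists_partner h hx hb (i :: w) hwi
    obtain ⟨j, v', rfl⟩ : ∃ j v', v = j :: v' := by
      cases v with
      | nil => simp at hv
      | cons j v' => exact ⟨j, v', rfl⟩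
    have hv' : v' = w := parent_eq h (by simpa using hv) hvK
    subst hv'
    have hij : j ≠ i := by
      rintro rfl; exact hvne rfl
    have hpf : p ∈ frontier (G f (i :: v') '' hull (closure U)) := by
      rw [(KK_closed (i :: v')).frontier_eq]
      refine ⟨image_mono (subset_hull _) hi, ?_⟩
      intro hint
      have : p ∈ interior (G f v' '' hull (closure U)) :=
        interior_mono (KK_cons_subset h i v') hint
      rw [(KK_closed v').frontier_eq] at hp
      exact hp.2 this
    obtain ⟨S1, hc1, hS1⟩ := ih (i :: v') hwi p hpf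
    obtain ⟨S2, hc2, hS2⟩ := ih (j :: v') (by rw [hvK]; exact hwi) p (by rw [hvK]; exact hpf)
    have hdisj : Disjoint S1 S2 := by
      rw [Finset.disjoint_left]
      intro u hu1 hu2
      have e1 := (hS1 u hu1).2.1
      have e2 := (hS2 u hu2).2.1
      have : (i :: v') = (j :: v') := by
        have e3 := List.suffix_of_suffix_length_le e1 e2 (by simp)
        exact e3.eq_of_length (by simp)
      simp at this
      exact hij this.symm
    refine ⟨S1 ∪ S2, ?_, ?_⟩
    · rw [Finset.card_union_of_disjoint hdisj, hc1, hc2, pow_succ]; ring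
    · intro u hu
      rcases Finset.mem_union.1 hu with hu | hu
      · obtain ⟨a1, a2, a3⟩ := hS1 u hu
        refine ⟨?_, (List.suffix_cons i v').trans a2, a3⟩
        rw [a1, List.length_cons]; ring
      · obtain ⟨a1, a2, a3⟩ := hS2 u hu
        refine ⟨?_, (List.suffix_cons j v').trans a2, a3⟩
        rw [a1, List.length_cons]; ring

theorem no_hole [ProperSpace E] (h : IFS n f r U) {x : E} (hx : x ∉ closure U)
    (hb : Bornology.IsBounded (connectedComponentIn (closure U)ᶜ x)) : False := by
  obtain ⟨c, hc⟩ := h.conn.nonempty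
  obtain ⟨ε, hε, hball⟩ := Metric.isOpen_iff.1 h.isOpen c hc
  have hD := diam_pos' h
  set D := diam (closure U) with hDdef
  obtain ⟨k, hk⟩ := exists_pow_lt_of_lt_one (div_pos hε hD) h.r_lt
  obtain ⟨w0, hw0, hcw0⟩ := exists_word h k c (subset_closure hc)
  have hKU : G f w0 '' hull (closure U) ⊆ closure U := by
    rintro _ ⟨y, hy, rfl⟩
    apply subset_closure
    apply hball
    obtain ⟨c', hc', hcc⟩ := hcw0
    rw [mem_ball, ← hcc, G_dist h, hw0]
    have h1 := dist_hull_le h hy (subset_hull _ hc')
    calc r ^ k * dist y c' ≤ r ^ k * D := mul_le_mul_of_nonneg_left h1 (pow_pos h.r_pos _).le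
      _ < (ε / D) * D := mul_lt_mul_of_pos_right hk hD
      _ = ε := by field_simp
  have hnt : Nontrivial E := by
    obtain ⟨a, _, b, _, hab⟩ := h.nontriv
    exact ⟨a, b, hab⟩
  obtain ⟨p, hp⟩ : (frontier (G f w0 '' hull (closure U))).Nonempty := by
    rw [nonempty_frontier_iff]
    refine ⟨⟨G f w0 c, mem_image_of_mem _ (subset_hull _ (subset_closure hc))⟩, ?_⟩
    intro huniv
    have : Bornology.IsBounded (univ : Set E) := by
      rw [← huniv]
      exact h.bdd.subset hKU
    exact NormedSpace.unbounded_univ ℝ E this
  obtain ⟨M, hM⟩ := packing_bound (E := E) D ε hε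
  obtain ⟨S, hcard, hS⟩ := growth h hx hb M w0 hKU p hp
  have hlt : M < 2 ^ M := Nat.lt_two_pow_self
  have hsep : ∀ v ∈ S, ∀ v' ∈ S, v ≠ v' →
      r ^ (w0.length + M) * ε ≤ dist (G f v c) (G f v' c) := by
    intro v hv v' hv' hne
    by_contra hcon
    push Not at hcon
    have hlen : v.length = v'.length := by rw [(hS v hv).1, (hS v' hv').1]
    have h1 : G f v' c ∈ G f v '' U := by
      refine ⟨(G f v).symm (G f v' c), ?_, by simp⟩
      apply hball
      rw [mem_ball]
      have h2 := G_dist h v c ((G f v).symm (G f v' c))
      rw [Homeomorph.apply_symm_apply, (hS v hv).1] at h2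
      rw [h2] at hcon
      rw [dist_comm]
      exact lt_of_mul_lt_mul_left hcon (pow_pos h.r_pos _).le
    exact (UU_disj h hlen hne).le_bot ⟨h1, mem_image_of_mem _ (subset_closure hc)⟩
  have hpos : 0 < r ^ (w0.length + M) := pow_pos h.r_pos _
  classical
  have hinj : Set.InjOn (fun v => G f v c) (S : Set (List (Fin n))) := by
    intro v hv v' hv' heq
    by_contra hne
    have := hsep v hv v' hv' hne
    rw [show G f v c = G f v' c from heq, dist_self] at this
    exact absurd this (not_le.2 (mul_pos hpos hε))
  have hle := hM (r ^ (w0.length + M)) hpos p (S.image (fun v => G f v c))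
    (by
      intro y hy
      obtain ⟨v, hv, rfl⟩ := Finset.mem_image.1 hy
      obtain ⟨hlen, _, a, ha, hap⟩ := hS v hv
      rw [← hap, G_dist h, hlen]
      exact mul_le_mul_of_nonneg_left (dist_le_diam_of_mem h.bdd (subset_closure hc) ha) hpos.le)
    (by
      intro y hy y' hy' hne
      obtain ⟨v, hv, rfl⟩ := Finset.mem_image.1 hy
      obtain ⟨v', hv', rfl⟩ := Finset.mem_image.1 hy'
      exact hsep v hv v' hv' (fun e => hne (by rw [e])))
  rw [Finset.card_image_of_injOn hinj, hcard] at hle
  omega

end Pool.Agent.R957.Rep
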